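import Mathlib

/-!
# Compatible straightening laws for disjoint unions of chains

Let `P` be a finite poset and let `C ⊆ P` be a union of connected components. We show that in a
compatible ASL on `𝓙(P)` one has `φ(x) φ(y) = φ(∅) φ(x ∪ y)` for all poset ideals `x ⊆ C`,
`y ⊆ P \ C` (`split`). The proof is by descending induction: first for `y = P \ C` (`split_top`), and
then in general, by multiplying with `φ(P \ C)` and comparing standard monomials. If `P` is a
disjoint union of chains, and `I, I'` are poset ideals, then there is such a `C` with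
`I ∩ C ⊆ I' ∩ C` and `I' \ C ⊆ I \ C`, and so `φ(I) φ(I') = φ(I ∩ I') φ(I ∪ I')`.
-/

namespace Pool.Agent.Results.MP_9c3df6_al.DisjointChains

open MvPolynomial

section asl

variable (K : Type*) [Field K] {S : Type*} [CommRing S] [Algebra K S]

/-- A multiset of elements of `L` is standard if any two of its elements are comparable. -/
def IsStd {L : Type*} [PartialOrder L] (m : Multiset L) : Prop :=
  ∀ a ∈ m, ∀ b ∈ m, a ≤ b ∨ b ≤ a

/-- The product of the `φ(α)`, `α ∈ m`. -/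
def mon {L : Type*} (φ : L → S) (m : Multiset L) : S := (m.map φ).prod

/-- The subalgebra `R` of `S` generated by the `φ(α)` is an algebra with straightening laws on `L`
over `K`: (i) the standard monomials form a `K`-basis of `R`; (ii) all standard monomials
`φ(γ₁) φ(γ₂) ⋯`, `γ₁ ≤ γ₂ ≤ ⋯`, which occur in the expansion of `φ(α) φ(β)` for incomparable `α`,
`β`, satisfy `γ₁ ≤ α` and `γ₁ ≤ β`. -/
structure IsASL {L : Type*} [PartialOrder L] (φ : L → S) : Prop where
  linearIndependent : LinearIndependent K fun m : {m : Multiset L // IsStd m} => mon φ m.1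
  span : Submodule.span K (Set.range fun m : {m : Multiset L // IsStd m} => mon φ m.1) =
    Subalgebra.toSubmodule (Algebra.adjoin K (Set.range φ))
  straightening : ∀ α β : L, ¬ α ≤ β → ¬ β ≤ α → ∀ c : {m : Multiset L // IsStd m} →₀ K,
    (c.sum fun m r => r • mon φ m.1) = φ α * φ β →
    ∀ m ∈ c.support, ∃ γ ∈ m.1, (∀ δ ∈ m.1, γ ≤ δ) ∧ γ ≤ α ∧ γ ≤ β

end asl

section compat

variable {P : Type*} [PartialOrder P] {S : Type*} [CommRing S]

/-- The relation `φ(I) φ(I') = φ(J) φ(J')` with `J ⊆ I ∩ I'` and `J' ⊇ I ∪ I'`. -/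
def Rel (φ : LowerSet P → S) (I I' J J' : LowerSet P) : Prop :=
  J ≤ I ⊓ I' ∧ I ⊔ I' ≤ J' ∧ φ I * φ I' = φ J * φ J'

/-- Every straightening relation reads `φ(I) φ(I') = φ(J) φ(J')` with `J ⊆ I ∩ I'` and
`J' ⊇ I ∪ I'`. -/
def Compatible (φ : LowerSet P → S) : Prop :=
  ∀ I I' : LowerSet P, ¬ I ≤ I' → ¬ I' ≤ I → ∃ J J', Rel φ I I' J J'

/-- The straightening relations of `φ` and `ψ` coincide. -/
def Identified {S' : Type*} [CommRing S'] (φ : LowerSet P → S) (ψ : LowerSet P → S') : Prop :=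
  ∀ I I' : LowerSet P, ¬ I ≤ I' → ¬ I' ≤ I → ∀ J J', Rel φ I I' J J' ↔ Rel ψ I I' J J'

end compat

section rings

variable (K : Type*) [Field K]

/-- `φ(I) = w_I t` in `K[x_i, t]`, where `w_I` is the monomial in the `x_i` with exponent vector
`w I`; the polynomial ring is written as `K[x_i][t]`. -/
noncomputable def toric {σ L : Type*} (w : L → σ →₀ ℕ) (I : L) :
    Polynomial (MvPolynomial σ K) :=
  Polynomial.C (monomial (w I) 1) * Polynomial.X

open Classical in
/-- The exponent vector of `x(I) = ∏_{p ∈ I} x_p`. -/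
noncomputable def orderVec {P : Type*} [PartialOrder P] [Fintype P] (I : LowerSet P) : P →₀ ℕ :=
  Finsupp.equivFunOnFinite.symm fun p => if p ∈ I then 1 else 0

/-- The generators of `K[𝓞(P)]`. -/
noncomputable def phiO {P : Type*} [PartialOrder P] [Fintype P] :
    LowerSet P → Polynomial (MvPolynomial P K) :=
  toric K orderVec

end rings

/-! ### The proof -/

section proof

variable {P : Type*} [PartialOrder P] [Finite P] {S : Type*} [CommRing S] [IsDomain S]

/-- `C` is a union of connected components. -/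
def Clopen (C : Set P) : Prop := ∀ p q : P, p ≤ q ∨ q ≤ p → p ∈ C → q ∈ C

theorem Clopen.compl {C : Set P} (h : Clopen C) : Clopen Cᶜ :=
  fun p q hpq hp hq => hp (h q p hpq.symm hq)

/-- `I ∩ C` -/
def cut {C : Set P} (h : Clopen C) (I : LowerSet P) : LowerSet P :=
  ⟨(I : Set P) ∩ C, fun _ _ hab ha => ⟨I.lower hab ha.1, h _ _ (Or.inr hab) ha.2⟩⟩

theorem mem_cut {C : Set P} (h : Clopen C) (I : LowerSet P) (p : P) :
    p ∈ cut h I ↔ p ∈ I ∧ p ∈ C := Iff.rfl

variable {φ : LowerSet P → S} (h0 : ∀ I, φ I ≠ 0) (hinj : Function.Injective φ)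
  (huniq : ∀ A B C D : LowerSet P, A ≤ B → C ≤ D → φ A * φ B = φ C * φ D →
    (A = C ∧ B = D) ∨ (A = D ∧ B = C)) (hcomp : Compatible φ)

include h0 hinj hcomp in
theorem split_top {C : Set P} (hC : Clopen C) (x : LowerSet P) (hx : (x : Set P) ⊆ C) :
    φ x * φ (cut hC.compl ⊤) = φ ⊥ * φ (x ⊔ cut hC.compl ⊤) := by
  induction x using WellFoundedGT.induction with
  | ind x ih =>
    by_cases hx0 : x = ⊥
    · rw [hx0, bot_sup_eq]
    by_cases hT : cut hC.compl ⊤ = ⊥
    · rw [hT, sup_bot_eq, mul_comm]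
    have h1 : ¬ x ≤ cut hC.compl ⊤ := by
      intro hle
      apply hx0
      rw [eq_bot_iff]
      intro p hp
      exact absurd (hx hp) (hle hp).2
    have h2 : ¬ cut hC.compl ⊤ ≤ x := by
      intro hle
      apply hT
      rw [eq_bot_iff]
      intro p hp
      exact absurd (hx (hle hp)) hp.2
    obtain ⟨J, J', hJ, hJ', hrel⟩ := hcomp _ _ h1 h2
    have hJb : J = ⊥ := by
      rw [eq_bot_iff]
      intro p hp
      have := hJ hp
      exact absurd (hx this.1) this.2.2
    subst hJb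
    have hJ'eq : J' = cut hC J' ⊔ cut hC.compl ⊤ := by
      ext p
      change p ∈ J' ↔ (p ∈ J' ∧ p ∈ C) ∨ (p ∈ (⊤ : LowerSet P) ∧ p ∈ Cᶜ)
      constructor
      · intro hp
        by_cases hpC : p ∈ C
        · exact Or.inl ⟨hp, hpC⟩
        · exact Or.inr ⟨trivial, hpC⟩
      · rintro (hp | hp)
        · exact hp.1
        · exact hJ' (Or.inr hp)
    have hxy : x ≤ cut hC J' := fun p hp => ⟨hJ' (Or.inl hp), hx hp⟩
    rcases eq_or_lt_of_le hxy with heq | hlt
    · rw [hrel]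
      conv_lhs => rw [hJ'eq]
      rw [← heq]
    · exfalso
      have h3 := ih (cut hC J') hlt (fun p hp => hp.2)
      rw [← hJ'eq, ← hrel] at h3
      exact hlt.ne (hinj (mul_right_cancel₀ (h0 _) h3)).symm

include h0 hinj huniq hcomp in
theorem split {C : Set P} (hC : Clopen C) : ∀ z x y : LowerSet P, (x : Set P) ⊆ C →
    (y : Set P) ⊆ Cᶜ → z = x ⊔ y → φ x * φ y = φ ⊥ * φ z := by
  intro z
  induction z using WellFoundedGT.induction with
  | ind z ih =>
    intro x y hx hy hz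
    by_cases hx0 : x = ⊥
    · rw [hz, hx0, bot_sup_eq]
    by_cases hy0 : y = ⊥
    · rw [hz, hy0, sup_bot_eq, mul_comm]
    have h1 : ¬ x ≤ y := by
      intro hle
      apply hx0
      rw [eq_bot_iff]
      intro p hp
      exact absurd (hx hp) (hy (hle hp))
    have h2 : ¬ y ≤ x := by
      intro hle
      apply hy0
      rw [eq_bot_iff]
      intro p hp
      exact absurd (hx (hle hp)) (hy hp)
    obtain ⟨J, J', hJ, hJ', hrel⟩ := hcomp _ _ h1 h2
    have hJb : J = ⊥ := by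
      rw [eq_bot_iff]
      intro p hp
      have := hJ hp
      exact absurd (hx this.1) (hy this.2)
    subst hJb
    rw [← hz] at hJ'
    rcases eq_or_lt_of_le hJ' with heq | hlt
    · rw [hrel, heq]
    exfalso
    have hJ'eq : J' = cut hC J' ⊔ cut hC.compl J' := by
      ext p
      change p ∈ J' ↔ (p ∈ J' ∧ p ∈ C) ∨ (p ∈ J' ∧ p ∈ Cᶜ)
      by_cases hpC : p ∈ C
      · simp [hpC]
      · simp [hpC]
    have h3 := ih J' hlt (cut hC J') (cut hC.compl J') (fun p hp => hp.2) (fun p hp => hp.2) hJ'eq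
    have h4 := split_top h0 hinj hcomp hC x hx
    have h5 := split_top h0 hinj hcomp hC (cut hC J') (fun p hp => hp.2)
    have h6 : φ y * φ (x ⊔ cut hC.compl ⊤) =
        φ (cut hC.compl J') * φ (cut hC J' ⊔ cut hC.compl ⊤) := by
      apply mul_left_cancel₀ (h0 ⊥)
      calc φ ⊥ * (φ y * φ (x ⊔ cut hC.compl ⊤)) = (φ x * φ y) * φ (cut hC.compl ⊤) := by
            rw [mul_left_comm, ← h4]; ring
        _ = (φ (cut hC J') * φ (cut hC.compl J')) * φ (cut hC.compl ⊤) := by rw [hrel, h3]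
        _ = φ ⊥ * (φ (cut hC.compl J') * φ (cut hC J' ⊔ cut hC.compl ⊤)) := by
            rw [mul_left_comm (φ ⊥), ← h5]; ring
    have h7 : ∀ u v : LowerSet P, (u : Set P) ⊆ Cᶜ → u ≤ v ⊔ cut hC.compl ⊤ :=
      fun u v hu p hp => Or.inr ⟨trivial, hu hp⟩
    have hzx : ∀ p, p ∈ z ↔ p ∈ x ∨ p ∈ y := fun p => by rw [hz]; rfl
    have h7' : cut hC.compl J' ≤ cut hC J' ⊔ cut hC.compl ⊤ :=
      h7 (cut hC.compl J') (cut hC J') (fun p (hp : p ∈ cut hC.compl J') => hp.2)
    rcases huniq _ _ _ _ (h7 y x hy) h7' h6 with ⟨h8, h9⟩ | ⟨h8, h9⟩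
    · apply hlt.ne
      ext p
      change p ∈ z ↔ p ∈ J'
      rw [hzx]
      constructor
      · rintro (hp | hp)
        · exact hJ' ((hzx p).2 (Or.inl hp))
        · exact hJ' ((hzx p).2 (Or.inr hp))
      · intro hp
        by_cases hpC : p ∈ C
        · left
          have : p ∈ x ⊔ cut hC.compl ⊤ := by
            rw [h9]; exact Or.inl ⟨hp, hpC⟩
          rcases this with h | h
          · exact h
          · exact absurd hpC h.2
        · right
          rw [h8]; exact ⟨hp, hpC⟩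
    · apply hlt.ne
      ext p
      change p ∈ z ↔ p ∈ J'
      rw [hzx]
      constructor
      · rintro (hp | hp)
        · exact hJ' ((hzx p).2 (Or.inl hp))
        · exact hJ' ((hzx p).2 (Or.inr hp))
      · intro hp
        by_cases hpC : p ∈ C
        · exfalso
          have : p ∈ y := by rw [h8]; exact Or.inl ⟨hp, hpC⟩
          exact hy this hpC
        · right
          rw [h8]; exact Or.inr ⟨trivial, hpC⟩

include h0 hinj huniq hcomp in
theorem hibi (hP : ∀ a b c : P, a ≤ b ∨ b ≤ a → b ≤ c ∨ c ≤ b → a ≤ c ∨ c ≤ a)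
    (I I' : LowerSet P) : φ I * φ I' = φ (I ⊓ I') * φ (I ⊔ I') := by
  let C : Set P := {p | ∀ q, p ≤ q ∨ q ≤ p → q ∈ I → q ∈ I'}
  have hC : Clopen C := by
    intro p q hpq hp r hqr hr
    exact hp r (hP p q r hpq hqr) hr
  have hin : ∀ p, p ∈ C → p ∈ I → p ∈ I' := fun p hp hpI => hp p (Or.inl le_rfl) hpI
  have hout : ∀ p, p ∉ C → p ∈ I' → p ∈ I := by
    intro p hp hpI'
    by_contra hpI
    apply hp
    intro q hpq hq
    rcases hpq with h | h
    · exact absurd (I.lower h hq) hpI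
    · exact I'.lower h hpI'
  have key : ∀ (x y z : LowerSet P), (x : Set P) ⊆ C → (y : Set P) ⊆ Cᶜ → z = x ⊔ y →
      φ x * φ y = φ ⊥ * φ z := fun x y z hx hy hz => split h0 hinj huniq hcomp hC z x y hx hy hz
  have e1 := key (cut hC I) (cut hC.compl I) I (fun p hp => hp.2) (fun p hp => hp.2) (by
    ext p
    change p ∈ I ↔ (p ∈ I ∧ p ∈ C) ∨ (p ∈ I ∧ p ∈ Cᶜ)
    by_cases hpC : p ∈ C
    · simp [hpC]
    · simp [hpC])
  have e2 := key (cut hC I') (cut hC.compl I') I' (fun p hp => hp.2) (fun p hp => hp.2) (by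
    ext p
    change p ∈ I' ↔ (p ∈ I' ∧ p ∈ C) ∨ (p ∈ I' ∧ p ∈ Cᶜ)
    by_cases hpC : p ∈ C
    · simp [hpC]
    · simp [hpC])
  have e3 := key (cut hC I) (cut hC.compl I') (I ⊓ I') (fun p hp => hp.2) (fun p hp => hp.2) (by
    ext p
    change (p ∈ I ∧ p ∈ I') ↔ (p ∈ I ∧ p ∈ C) ∨ (p ∈ I' ∧ p ∈ Cᶜ)
    constructor
    · intro hp
      by_cases hpC : p ∈ C
      · exact Or.inl ⟨hp.1, hpC⟩
      · exact Or.inr ⟨hp.2, hpC⟩
    · rintro (hp | hp)
      · exact ⟨hp.1, hin p hp.2 hp.1⟩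
      · exact ⟨hout p hp.2 hp.1, hp.1⟩)
  have e4 := key (cut hC I') (cut hC.compl I) (I ⊔ I') (fun p hp => hp.2) (fun p hp => hp.2) (by
    ext p
    change (p ∈ I ∨ p ∈ I') ↔ (p ∈ I' ∧ p ∈ C) ∨ (p ∈ I ∧ p ∈ Cᶜ)
    constructor
    · intro hp
      by_cases hpC : p ∈ C
      · exact Or.inl ⟨hp.elim (hin p hpC) id, hpC⟩
      · exact Or.inr ⟨hp.elim id (hout p hpC), hpC⟩
    · rintro (hp | hp)
      · exact Or.inr hp.1
      · exact Or.inl hp.1)
  apply mul_left_cancel₀ (mul_ne_zero (h0 ⊥) (h0 ⊥))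
  calc φ ⊥ * φ ⊥ * (φ I * φ I') = (φ ⊥ * φ I) * (φ ⊥ * φ I') := by ring
    _ = (φ ⊥ * φ (I ⊓ I')) * (φ ⊥ * φ (I ⊔ I')) := by rw [← e1, ← e2, ← e3, ← e4]; ring
    _ = φ ⊥ * φ ⊥ * (φ (I ⊓ I') * φ (I ⊔ I')) := by ring

end proof

section final

variable {K : Type*} [Field K]

theorem toric_ne_zero {σ L : Type*} (w : L → σ →₀ ℕ) (I : L) : toric K w I ≠ 0 := by
  unfold toric
  apply mul_ne_zero
  · rw [Ne, Polynomial.C_eq_zero, monomial_eq_zero]
    exact one_ne_zero
  · exact Polynomial.X_ne_zero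

theorem toric_mul {σ L : Type*} (w : L → σ →₀ ℕ) (I J : L) :
    toric K w I * toric K w J = Polynomial.monomial 2 (monomial (w I + w J) 1) := by
  have h1 : monomial (w I + w J) (1 : K) = monomial (w I) 1 * monomial (w J) 1 := by
    rw [monomial_mul, one_mul]
  rw [h1, ← Polynomial.C_mul_X_pow_eq_monomial, map_mul]
  unfold toric
  ring

/-- uniqueness of standard expressions -/
theorem unique_of_linInd {S : Type*} [CommRing S] [Algebra K S] {L : Type*} [PartialOrder L]
    {φ : L → S}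
    (hli : LinearIndependent K fun m : {m : Multiset L // IsStd m} => mon φ m.1)
    (A B C D : L) (hAB : A ≤ B) (hCD : C ≤ D) (h : φ A * φ B = φ C * φ D) :
    (A = C ∧ B = D) ∨ (A = D ∧ B = C) := by
  have hstd : ∀ A B : L, A ≤ B → IsStd ({A, B} : Multiset L) := by
    intro A B hAB a ha b hb
    simp only [Multiset.insert_eq_cons, Multiset.mem_cons, Multiset.mem_singleton] at ha hb
    rcases ha with rfl | rfl <;> rcases hb with rfl | rfl
    · exact Or.inl le_rfl
    · exact Or.inl hAB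
    · exact Or.inr hAB
    · exact Or.inl le_rfl
  have h1 := hli.injective (a₁ := ⟨{A, B}, hstd A B hAB⟩) (a₂ := ⟨{C, D}, hstd C D hCD⟩) (by
    simpa [mon] using h)
  have h2 : ({A, B} : Multiset L) = {C, D} := congrArg Subtype.val h1
  have h3 : A ::ₘ {B} = C ::ₘ ({D} : Multiset L) := h2
  rcases Multiset.cons_eq_cons.1 h3 with ⟨h4, h5⟩ | ⟨h4, cs, h5, h6⟩
  · exact Or.inl ⟨h4, Multiset.singleton_inj.1 h5⟩
  · right
    have h7 : C ∈ ({B} : Multiset L) := by rw [h5]; exact Multiset.mem_cons_self _ _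
    have h8 : A ∈ ({D} : Multiset L) := by rw [h6]; exact Multiset.mem_cons_self _ _
    exact ⟨Multiset.mem_singleton.1 h8, (Multiset.mem_singleton.1 h7).symm⟩

/-- The relations of a `φ` with `φ(I) φ(I') = φ(I ∩ I') φ(I ∪ I')`. -/
theorem rel_iff {P : Type*} [PartialOrder P] {S : Type*} [CommRing S] {φ : LowerSet P → S}
    (huniq : ∀ A B C D : LowerSet P, A ≤ B → C ≤ D → φ A * φ B = φ C * φ D →
      (A = C ∧ B = D) ∨ (A = D ∧ B = C))
    (hh : ∀ I I' : LowerSet P, φ I * φ I' = φ (I ⊓ I') * φ (I ⊔ I')) (I I' J J' : LowerSet P) :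
    Rel φ I I' J J' ↔ J = I ⊓ I' ∧ J' = I ⊔ I' := by
  constructor
  · rintro ⟨h1, h2, h3⟩
    rw [hh] at h3
    have hle : I ⊓ I' ≤ I ⊔ I' := inf_le_left.trans le_sup_left
    rcases huniq _ _ _ _ hle ((h1.trans hle).trans h2) h3 with ⟨h4, h5⟩ | ⟨h4, h5⟩
    · exact ⟨h4.symm, h5.symm⟩
    · have h6 : I ⊓ I' = I ⊔ I' := le_antisymm hle (h5.le.trans h1)
      exact ⟨h5.symm.trans h6.symm, h4.symm.trans h6⟩
  · rintro ⟨rfl, rfl⟩
    exact ⟨le_rfl, le_rfl, hh I I'⟩

theorem orderVec_apply {P : Type*} [PartialOrder P] [Fintype P] (I : LowerSet P) (p : P) :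
    (p ∈ I → orderVec I p = 1) ∧ (p ∉ I → orderVec I p = 0) := by
  unfold orderVec
  constructor
  · intro h
    simp [h]
  · intro h
    simp [h]

theorem phiO_mul {P : Type*} [PartialOrder P] [Fintype P] (A B C D : LowerSet P) :
    phiO K A * phiO K B = phiO K C * phiO K D ↔ orderVec A + orderVec B = orderVec C + orderVec D := by
  unfold phiO
  rw [toric_mul, toric_mul]
  constructor
  · intro h
    have h1 := Polynomial.monomial_injective 2 h
    exact monomial_left_injective (one_ne_zero) h1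
  · intro h
    rw [h]

theorem phiO_uniq {P : Type*} [PartialOrder P] [Fintype P] (A B C D : LowerSet P)
    (hAB : A ≤ B) (hCD : C ≤ D) (h : phiO K A * phiO K B = phiO K C * phiO K D) :
    (A = C ∧ B = D) ∨ (A = D ∧ B = C) := by
  rw [phiO_mul] at h
  left
  have key : ∀ p, (p ∈ A ↔ p ∈ C) ∧ (p ∈ B ↔ p ∈ D) := by
    intro p
    have hp : orderVec A p + orderVec B p = orderVec C p + orderVec D p := by
      have := DFunLike.congr_fun h p
      simpa using this
    obtain ⟨a1, a2⟩ := orderVec_apply A p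
    obtain ⟨b1, b2⟩ := orderVec_apply B p
    obtain ⟨c1, c2⟩ := orderVec_apply C p
    obtain ⟨d1, d2⟩ := orderVec_apply D p
    have hAB' : p ∈ A → p ∈ B := fun h => hAB h
    have hCD' : p ∈ C → p ∈ D := fun h => hCD h
    by_cases hA : p ∈ A <;> by_cases hB : p ∈ B <;> by_cases hC : p ∈ C <;>
      by_cases hD : p ∈ D <;> simp_all
  exact ⟨LowerSet.ext (Set.ext fun p => (key p).1), LowerSet.ext (Set.ext fun p => (key p).2)⟩

theorem phiO_hibi {P : Type*} [PartialOrder P] [Fintype P] (I I' : LowerSet P) :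
    phiO K I * phiO K I' = phiO K (I ⊓ I') * phiO K (I ⊔ I') := by
  rw [phiO_mul]
  ext p
  rw [Finsupp.add_apply, Finsupp.add_apply]
  obtain ⟨a1, a2⟩ := orderVec_apply I p
  obtain ⟨b1, b2⟩ := orderVec_apply I' p
  obtain ⟨c1, c2⟩ := orderVec_apply (I ⊓ I') p
  obtain ⟨d1, d2⟩ := orderVec_apply (I ⊔ I') p
  by_cases hA : p ∈ I
  · by_cases hB : p ∈ I'
    · rw [a1 hA, b1 hB, c1 ⟨hA, hB⟩, d1 (Or.inl hA)]
    · rw [a1 hA, b2 hB, c2 (fun h => hB h.2), d1 (Or.inl hA)]
  · by_cases hB : p ∈ I'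
    · rw [a2 hA, b1 hB, c2 (fun h => hA h.1), d1 (Or.inr hB)]
    · rw [a2 hA, b2 hB, c2 (fun h => hA h.1), d2 (fun h => h.elim hA hB)]

end final

/-- Let `P` be a finite disjoint union of chains, that is, a finite poset in which comparability is
an equivalence relation, and let `K[Ω]` be a compatible ASL on `𝓙(P)` over the field `K`. Then
`K[Ω]` is identified with `K[𝓞(P)]`. -/
theorem result {P : Type*} [PartialOrder P] [Fintype P]
    (hP : ∀ a b c : P, a ≤ b ∨ b ≤ a → b ≤ c ∨ c ≤ b → a ≤ c ∨ c ≤ a)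
    (K : Type*) [Field K] {σ : Type*} (w : LowerSet P → σ →₀ ℕ)
    (hinj : Function.Injective (toric K w)) (hasl : IsASL K (toric K w))
    (hcomp : Compatible (toric K w)) :
    Identified (toric K w) (phiO K (P := P)) := by
  intro I I' _ _ J J'
  have huniq := unique_of_linInd (φ := toric K w) hasl.linearIndependent
  rw [rel_iff huniq (hibi (toric_ne_zero w) hinj huniq hcomp hP),
    rel_iff phiO_uniq phiO_hibi]

end Pool.Agent.Results.MP_9c3df6_al.DisjointChains
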